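import Mathlib
import Pool.Agent.UPM.Skew

/-!
# Certificates for shortest regular paths

A certificate is a laminar family of vertex sets, each cut by at most one matching edge.
-/

set_option autoImplicit false

namespace Pool.Agent.WPM

open Pool.Agent.UPM Finset

variable {V : Type*}

open Classical in
/-- `1` if `K` separates `u` and `v`, else `0`. -/
noncomputable def cut (K : Set V) (u v : V) : ℤ := if (u ∈ K ↔ v ∈ K) then 0 else 1

open Classical in
/-- The characteristic function. -/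
noncomputable def chi (K : Set V) (v : V) : ℤ := if v ∈ K then 1 else 0

theorem cut_nonneg (K : Set V) (u v : V) : 0 ≤ cut K u v := by
  unfold cut; split_ifs <;> omega

theorem cut_le_one (K : Set V) (u v : V) : cut K u v ≤ 1 := by
  unfold cut; split_ifs <;> omega

theorem cut_self (K : Set V) (u : V) : cut K u u = 0 := by
  simp [cut]

theorem cut_comm (K : Set V) (u v : V) : cut K u v = cut K v u := by
  unfold cut
  by_cases h1 : u ∈ K <;> by_cases h2 : v ∈ K <;> simp [h1, h2]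

theorem cut_tri (K : Set V) (u v t : V) : cut K u t ≤ cut K u v + cut K v t := by
  unfold cut
  by_cases h1 : u ∈ K <;> by_cases h2 : v ∈ K <;> by_cases h3 : t ∈ K <;> simp [h1, h2, h3]

theorem cut_flip {K : Set V} {v w : V} (h : cut K v w = 1) (u : V) :
    cut K u w = 1 - cut K u v := by
  unfold cut at *
  by_cases h1 : u ∈ K <;> by_cases h2 : v ∈ K <;> by_cases h3 : w ∈ K <;> simp_all

theorem cut_eq_of {K : Set V} {v w : V} (h : cut K v w = 0) (u : V) :
    cut K u w = cut K u v := by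
  unfold cut at *
  by_cases h1 : u ∈ K <;> by_cases h2 : v ∈ K <;> by_cases h3 : w ∈ K <;> simp_all

theorem cut_zero_or_one (K : Set V) (u v : V) : cut K u v = 0 ∨ cut K u v = 1 := by
  unfold cut; split_ifs
  · exact Or.inl rfl
  · exact Or.inr rfl

theorem cut_eq_one_iff {K : Set V} {u v : V} : cut K u v = 1 ↔ ¬ (u ∈ K ↔ v ∈ K) := by
  unfold cut; split_ifs with h <;> simp [h]

theorem cut_eq_zero_iff {K : Set V} {u v : V} : cut K u v = 0 ↔ (u ∈ K ↔ v ∈ K) := by
  unfold cut; split_ifs with h <;> simp [h]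

/-- The weight of the part of `p` between `a` and `b`. -/
def wt (c : V → V → ℤ) (p : ℕ → V) (a b : ℕ) : ℤ := ∑ j ∈ Ico a b, c (p j) (p (j + 1))

variable (S : Skew V)

/-- Crossings of `K` by non-matching edges minus crossings by matching edges. -/
noncomputable def cr (K : Set V) (p : ℕ → V) (a b : ℕ) : ℤ :=
  ∑ j ∈ Ico a b, (cut K (p j) (S.m (p (j + 1))) - cut K (p (j + 1)) (S.m (p (j + 1))))

variable {S}

theorem wt_self (c : V → V → ℤ) (p : ℕ → V) (a : ℕ) : wt c p a a = 0 := by simp [wt]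

theorem wt_succ (c : V → V → ℤ) (p : ℕ → V) {a b : ℕ} (h : a ≤ b) :
    wt c p a (b + 1) = wt c p a b + c (p b) (p (b + 1)) := by
  unfold wt; rw [sum_Ico_succ_top h]

theorem cr_self (K : Set V) (p : ℕ → V) (a : ℕ) : cr S K p a a = 0 := by simp [cr]

theorem cr_succ (K : Set V) (p : ℕ → V) {a b : ℕ} (h : a ≤ b) :
    cr S K p a (b + 1) = cr S K p a b +
      (cut K (p b) (S.m (p (b + 1))) - cut K (p (b + 1)) (S.m (p (b + 1)))) := by
  unfold cr; rw [sum_Ico_succ_top h]

/-- No matching edge of the path crosses `K`. -/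
theorem cr_ge_of_avoid {K : Set V} {q : ℕ → V} {k : ℕ}
    (h : ∀ j, 1 ≤ j → j ≤ k → cut K (q j) (S.m (q j)) = 0) : cut K (q 0) (q k) ≤ cr S K q 0 k := by
  induction k with
  | zero => rw [cut_self, cr_self]
  | succ k ih =>
    rw [cr_succ _ _ (Nat.zero_le _)]
    have h1 := ih fun j h1 h2 => h j h1 (by omega)
    have h2 := h (k + 1) (by omega) le_rfl
    have h3 := cut_eq_of h2 (q k)
    have h4 := cut_tri K (q 0) (q k) (q (k + 1))
    omega

/-- At most one matching edge of the path crosses `K`. -/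
theorem cr_ge_neg {K : Set V} {q : ℕ → V} {k : ℕ}
    (h : ∀ i j, 1 ≤ i → i < j → j ≤ k → cut K (q i) (S.m (q i)) = 0 ∨
      cut K (q j) (S.m (q j)) = 0) : - cut K (q 0) (q k) ≤ cr S K q 0 k := by
  induction k with
  | zero => rw [cut_self, cr_self]; rfl
  | succ k ih =>
    rw [cr_succ _ _ (Nat.zero_le _)]
    rcases cut_zero_or_one K (q (k + 1)) (S.m (q (k + 1))) with h1 | h1
    · have h2 := ih fun i j g1 g2 g3 => h i j g1 g2 (by omega)
      have h3 := cut_eq_of h1 (q k)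
      have h4 := cut_tri K (q 0) (q (k + 1)) (q k)
      have h5 := cut_comm K (q k) (q (k + 1))
      omega
    · have h2 : cut K (q 0) (q k) ≤ cr S K q 0 k := by
        apply cr_ge_of_avoid
        intro j g1 g2
        rcases h j (k + 1) g1 (by omega) le_rfl with h3 | h3
        · exact h3
        · omega
      have h3 := cut_tri K (q 0) (q k) (S.m (q (k + 1)))
      have h4 := cut_flip h1 (q 0)
      omega

variable (S)

/-- A certificate with root `r`. -/
structure Cert (c : V → V → ℤ) (r : V) {ι : Type*} (I : Finset ι) (K : ι → Set V) (N : ℤ) :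
    Prop where
  lam : ∀ i ∈ I, ∀ j ∈ I, K i ⊆ K j ∨ K j ⊆ K i ∨ Disjoint (K i) (K j)
  base : ∀ i ∈ I, r ∉ K i → ∃ t, t ∈ K i ∧ S.m t ∉ K i ∧ ∀ v ∈ K i, S.m v ∉ K i → v = t
  root : ∀ i ∈ I, r ∈ K i → ∀ v, v ∈ K i ↔ S.m v ∈ K i
  mate : ∀ v, ∑ i ∈ I, cut (K i) v (S.m v) = N
  arc : ∀ a b, S.arc a b → ∑ i ∈ I, cut (K i) a (S.m b) ≤ N + c a b

variable {S}

variable {c : V → V → ℤ} {r : V} {ι : Type*} {I : Finset ι} {K : ι → Set V} {N : ℤ}

/-- The weight of a path is at least the sum of the crossing numbers. -/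
theorem Cert.arc_ge (C : Cert S c r I K N) {a b : V} (h : S.arc a b) :
    ∑ i ∈ I, (cut (K i) a (S.m b) - cut (K i) b (S.m b)) ≤ c a b := by
  rw [sum_sub_distrib, C.mate]
  have := C.arc a b h
  omega

theorem Cert.path_ge (C : Cert S c r I K N) {q : ℕ → V} {a b : ℕ}
    (h : ∀ j, a ≤ j → j < b → S.arc (q j) (q (j + 1))) :
    ∑ i ∈ I, cr S (K i) q a b ≤ wt c q a b := by
  unfold cr wt
  rw [sum_comm]
  refine sum_le_sum fun j hj => ?_
  rw [mem_Ico] at hj
  exact C.arc_ge (h j hj.1 hj.2)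

/-- The base of `K i`. -/
theorem Cert.base_cut (C : Cert S c r I K N) {i : ι} (hi : i ∈ I) (hr : r ∉ K i) :
    ∃ t, t ∈ K i ∧ S.m t ∉ K i ∧ ∀ v, cut (K i) v (S.m v) = 1 ↔ (v = t ∨ v = S.m t) := by
  obtain ⟨t, h1, h2, h3⟩ := C.base i hi hr
  refine ⟨t, h1, h2, fun v => ?_⟩
  rw [cut_eq_one_iff]
  constructor
  · intro h
    by_cases hv : v ∈ K i
    · left
      apply h3 v hv
      intro h4
      exact h ⟨fun _ => h4, fun _ => hv⟩
    · right
      have h4 : S.m v ∈ K i := by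
        by_contra h4
        exact h ⟨fun h5 => absurd h5 hv, fun h5 => absurd h5 h4⟩
      have h5 := h3 (S.m v) h4 (by rw [S.mm]; exact hv)
      rw [← h5, S.mm]
  · rintro (h | h)
    · rw [h]
      exact fun h4 => h2 (h4.1 h1)
    · rw [h, S.mm]
      exact fun h4 => h2 (h4.2 h1)

/-- A regular path crosses `K` by at most one matching edge. -/
theorem Cert.one_cross (C : Cert S c r I K N) {i : ι} (hi : i ∈ I) {u v : V} (h1 : v ≠ u)
    (h2 : v ≠ S.m u) : cut (K i) u (S.m u) = 0 ∨ cut (K i) v (S.m v) = 0 := by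
  by_cases hr : r ∈ K i
  · left
    rw [cut_eq_zero_iff]
    exact C.root i hi hr u
  · obtain ⟨t, _, _, ht⟩ := C.base_cut hi hr
    rcases cut_zero_or_one (K i) u (S.m u) with h3 | h3
    · exact Or.inl h3
    rcases cut_zero_or_one (K i) v (S.m v) with h4 | h4
    · exact Or.inr h4
    exfalso
    rcases (ht u).1 h3 with h5 | h5 <;> rcases (ht v).1 h4 with h6 | h6
    · exact h1 (by rw [h5, h6])
    · exact h2 (by rw [h5, h6])
    · exact h2 (by rw [h5, h6, S.mm])
    · exact h1 (by rw [h5, h6])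

theorem Cert.cr_neg (C : Cert S c r I K N) {i : ι} (hi : i ∈ I) {q : ℕ → V} {k : ℕ}
    (hq : S.Path q k) : - cut (K i) (q 0) (q k) ≤ cr S (K i) q 0 k :=
  cr_ge_neg fun a b _ h2 h3 => C.one_cross hi (hq.2 a b h2 h3).1 (hq.2 a b h2 h3).2

/-- If the first node is on the base, the path does not use it. -/
theorem Cert.cr_start (C : Cert S c r I K N) {i : ι} (hi : i ∈ I) {q : ℕ → V} {k : ℕ}
    (hq : S.Path q k) (h : cut (K i) (q 0) (S.m (q 0)) = 1) :
    cut (K i) (q 0) (q k) ≤ cr S (K i) q 0 k := by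
  apply cr_ge_of_avoid
  intro j h1 h2
  rcases C.one_cross hi (hq.2 0 j (by omega) h2).1 (hq.2 0 j (by omega) h2).2 with h3 | h3
  · omega
  · exact h3

/-- At most one of two disjoint paths uses the base. -/
theorem Cert.cr_pair (C : Cert S c r I K N) {i : ι} (hi : i ∈ I) {q1 q2 : ℕ → V} {k1 k2 : ℕ}
    (hd : ∀ a b, a ≤ k1 → b ≤ k2 → q2 b ≠ q1 a ∧ q2 b ≠ S.m (q1 a)) :
    cut (K i) (q1 0) (q1 k1) ≤ cr S (K i) q1 0 k1 ∨
      cut (K i) (q2 0) (q2 k2) ≤ cr S (K i) q2 0 k2 := by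
  by_cases h : ∀ j, 1 ≤ j → j ≤ k1 → cut (K i) (q1 j) (S.m (q1 j)) = 0
  · exact Or.inl (cr_ge_of_avoid h)
  · right
    push Not at h
    obtain ⟨j, h1, h2, h3⟩ := h
    apply cr_ge_of_avoid
    intro b _ hb
    rcases C.one_cross hi (hd j b h2 hb).1 (hd j b h2 hb).2 with h4 | h4
    · exact absurd h4 h3
    · exact h4

theorem Cert.cr_other (C : Cert S c r I K N) {i : ι} (hi : i ∈ I) {q : ℕ → V} {k : ℕ} {u : V}
    (hd : ∀ b, b ≤ k → q b ≠ u ∧ q b ≠ S.m u) (h : cut (K i) u (S.m u) = 1) :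
    cut (K i) (q 0) (q k) ≤ cr S (K i) q 0 k := by
  apply cr_ge_of_avoid
  intro j _ h2
  rcases C.one_cross hi (hd j h2).1 (hd j h2).2 with h3 | h3
  · omega
  · exact h3

variable (S)

/-- The situation: a path `p` with `h` arcs such that lowering the weight of the edge between its
two ends to minus the weight of the path is still certified. -/
structure Tight (c : V → V → ℤ) (r : V) {ι : Type*} (I : Finset ι) (K : ι → Set V) (N : ℤ)
    (p : ℕ → V) (h : ℕ) : Prop extends Cert S c r I K N where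
  path : S.Path p h
  rt : r = S.m (p 0)
  low : ∑ i ∈ I, cut (K i) r (p h) ≤ N - wt c p 0 h

variable {S}

variable {p : ℕ → V} {h : ℕ}

/-- The lower bound for the crossing numbers of the path. -/
noncomputable def gg (K : ι → Set V) (r : V) (p : ℕ → V) (h : ℕ) (i : ι) : ℤ :=
  cut (K i) (p 0) r - cut (K i) r (p h)

theorem Tight.ge (C : Tight S c r I K N p h) {i : ι} (hi : i ∈ I) :
    gg K r p h i ≤ cr S (K i) p 0 h := by
  have hrt := C.rt
  unfold gg
  by_cases hr : r ∈ K i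
  · have h1 : p 0 ∈ K i := by rw [C.root i hi hr (p 0), ← hrt]; exact hr
    have h2 : cut (K i) (p 0) (p h) ≤ cr S (K i) p 0 h := by
      apply cr_ge_of_avoid
      intro j _ _
      rw [cut_eq_zero_iff]
      exact C.root i hi hr _
    have h3 : cut (K i) (p 0) r = 0 := by rw [cut_eq_zero_iff]; exact ⟨fun _ => hr, fun _ => h1⟩
    have h4 := cut_nonneg (K i) (p 0) (p h)
    have h5 := cut_nonneg (K i) r (p h)
    omega
  · by_cases h1 : p 0 ∈ K i
    · have h2 : cut (K i) (p 0) (S.m (p 0)) = 1 := by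
        rw [cut_eq_one_iff, ← hrt]
        exact fun h3 => hr (h3.1 h1)
      have h3 := C.cr_start hi C.path h2
      rw [← hrt] at h2
      have h4 := cut_flip h2 (p h)
      rw [cut_comm _ (p h) r, cut_comm _ (p h) (p 0)] at h4
      omega
    · have h2 : cut (K i) (p 0) r = 0 := by
        rw [cut_eq_zero_iff]
        exact ⟨fun h => absurd h h1, fun h => absurd h hr⟩
      have h3 := C.cr_neg hi C.path
      have h4 := cut_eq_of h2 (p h)
      rw [cut_comm _ (p h) r, cut_comm _ (p h) (p 0)] at h4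
      omega

theorem Tight.sum_gg (C : Tight S c r I K N p h) : wt c p 0 h ≤ ∑ i ∈ I, gg K r p h i := by
  have h1 := C.low
  have h2 := C.mate (p 0)
  rw [← C.rt] at h2
  unfold gg
  rw [sum_sub_distrib]
  omega

theorem Tight.wt_eq (C : Tight S c r I K N p h) : wt c p 0 h = ∑ i ∈ I, cr S (K i) p 0 h := by
  have h1 := C.path_ge (q := p) (a := 0) (b := h) fun j _ hj => C.path.1 j hj
  have h2 := sum_le_sum fun i (hi : i ∈ I) => C.ge hi
  have h3 := C.sum_gg
  omega

theorem Tight.cr_eq (C : Tight S c r I K N p h) {i : ι} (hi : i ∈ I) :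
    cr S (K i) p 0 h = gg K r p h i := by
  have h1 := C.path_ge (q := p) (a := 0) (b := h) fun j _ hj => C.path.1 j hj
  have h2 := C.sum_gg
  have h3 : ∑ i ∈ I, (cr S (K i) p 0 h - gg K r p h i) = 0 := by
    have := sum_nonneg fun i (hi : i ∈ I) => sub_nonneg.2 (C.ge hi)
    rw [sum_sub_distrib] at this ⊢
    omega
  have h4 := (sum_eq_zero_iff_of_nonneg fun i (hi : i ∈ I) => sub_nonneg.2 (C.ge hi)).1 h3 i hi
  omega

/-- The crossing number of a part. -/
theorem cr_split (S : Skew V) (K : Set V) (p : ℕ → V) {a b d : ℕ} (h1 : a ≤ b) (h2 : b ≤ d) :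
    cr S K p a d = cr S K p a b + cr S K p b d := by
  unfold cr; rw [sum_Ico_consecutive _ h1 h2]

theorem wt_split (c : V → V → ℤ) (p : ℕ → V) {a b d : ℕ} (h1 : a ≤ b) (h2 : b ≤ d) :
    wt c p a d = wt c p a b + wt c p b d := by
  unfold wt; rw [sum_Ico_consecutive _ h1 h2]

/-- Every part of the path is tight. -/
theorem Tight.wt_part (C : Tight S c r I K N p h) {a b : ℕ} (h1 : a ≤ b) (h2 : b ≤ h) :
    wt c p a b = ∑ i ∈ I, cr S (K i) p a b := by
  have e1 := C.wt_eq
  have g1 := C.path_ge (q := p) (a := 0) (b := a) fun j _ hj => C.path.1 j (by omega)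
  have g2 := C.path_ge (q := p) (a := a) (b := b) fun j _ hj => C.path.1 j (by omega)
  have g3 := C.path_ge (q := p) (a := b) (b := h) fun j _ hj => C.path.1 j (by omega)
  rw [wt_split c p (Nat.zero_le a) (h1.trans h2), wt_split c p h1 h2,
    sum_congr rfl fun i _ => (cr_split S (K i) p (Nat.zero_le a) (h1.trans h2)),
    sum_add_distrib, sum_congr rfl fun i _ => (cr_split S (K i) p h1 h2), sum_add_distrib] at e1
  omega

/-! ### The shape of the sets on the path -/

variable (S)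

/-- The vertices of the alternating path: `v (2a+1) = p a`, `v (2a) = m (p a)`. -/
def vv (p : ℕ → V) (k : ℕ) : V := if k % 2 = 0 then S.m (p (k / 2)) else p (k / 2)

variable {S}

theorem vv_even (p : ℕ → V) (a : ℕ) : vv S p (2 * a) = S.m (p a) := by
  unfold vv
  rw [if_pos (by omega)]
  congr 2; omega

theorem vv_odd (p : ℕ → V) (a : ℕ) : vv S p (2 * a + 1) = p a := by
  unfold vv
  rw [if_neg (by omega)]
  congr 1; omega

variable (S)

/-- The set meets the path in an interval. -/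
structure Ivl (K : Set V) (p : ℕ → V) (h l r : ℕ) : Prop where
  one_le : 1 ≤ l
  le : l ≤ r
  le' : r ≤ 2 * h + 1
  par : l % 2 = r % 2
  mem : ∀ k, k ≤ 2 * h + 1 → (vv S p k ∈ K ↔ l ≤ k ∧ k ≤ r)

variable {S}

/-- Sequences with at most one crossing of each parity. -/
theorem seq_shape (f : ℕ → Prop) (h : ℕ) (h0 : ¬ f 0)
    (he : ∀ a b, a ≤ h → b ≤ h → ¬ (f (2 * a) ↔ f (2 * a + 1)) → ¬ (f (2 * b) ↔ f (2 * b + 1)) →
      a = b)
    (ho : ∀ a b, a < h → b < h → ¬ (f (2 * a + 1) ↔ f (2 * a + 2)) →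
      ¬ (f (2 * b + 1) ↔ f (2 * b + 2)) → a = b)
    (hz : f (2 * h + 1) → ∀ a, a < h → (f (2 * a + 1) ↔ f (2 * a + 2))) :
    (∀ k, k ≤ 2 * h + 1 → ¬ f k) ∨ ∃ l r, 1 ≤ l ∧ l ≤ r ∧ r ≤ 2 * h + 1 ∧ l % 2 = r % 2 ∧
      ∀ k, k ≤ 2 * h + 1 → (f k ↔ l ≤ k ∧ k ≤ r) := by
  classical
  have hpar : ∀ a b, a ≤ 2 * h → b ≤ 2 * h → a % 2 = b % 2 → ¬ (f a ↔ f (a + 1)) →
      ¬ (f b ↔ f (b + 1)) → a = b := by
    intro a b ha hb hab h1 h2
    rcases Nat.even_or_odd' a with ⟨a', rfl | rfl⟩ <;> rcases Nat.even_or_odd' b with ⟨b', rfl | rfl⟩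
    · rw [he a' b' (by omega) (by omega) h1 h2]
    · omega
    · omega
    · rw [ho a' b' (by omega) (by omega) h1 h2]
  by_cases hall : ∀ k, k ≤ 2 * h + 1 → ¬ f k
  · exact Or.inl hall
  right
  push Not at hall
  have hex : ∃ k, f k := by
    obtain ⟨k, _, hk⟩ := hall
    exact ⟨k, hk⟩
  set l := Nat.find hex with hl
  have hfl : f l := Nat.find_spec hex
  have hlt : ∀ k, k < l → ¬ f k := fun k hk => Nat.find_min hex hk
  have hl1 : 1 ≤ l := by
    by_contra h1
    have : l = 0 := by omega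
    rw [this] at hfl
    exact h0 hfl
  have hlh : l ≤ 2 * h + 1 := by
    obtain ⟨k, h1, h2⟩ := hall
    exact (Nat.find_min' hex h2).trans h1
  have hc : ¬ (f (l - 1) ↔ f (l - 1 + 1)) := by
    have e : l - 1 + 1 = l := by omega
    rw [e]
    exact fun h1 => hlt (l - 1) (by omega) (h1.2 hfl)
  by_cases hex2 : ∃ k, l < k ∧ k ≤ 2 * h + 1 ∧ ¬ f k
  · set m := Nat.find hex2 with hm
    obtain ⟨m1, m2, m3⟩ : l < m ∧ m ≤ 2 * h + 1 ∧ ¬ f m := Nat.find_spec hex2
    have hmt : ∀ k, l ≤ k → k < m → f k := by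
      intro k g1 g2
      by_contra g3
      rcases Nat.eq_or_lt_of_le g1 with g4 | g4
      · rw [← g4] at g3; exact g3 hfl
      · exact Nat.find_min hex2 g2 ⟨g4, by omega, g3⟩
    have hc2 : ¬ (f (m - 1) ↔ f (m - 1 + 1)) := by
      have e : m - 1 + 1 = m := by omega
      rw [e]
      exact fun h1 => m3 (h1.1 (hmt (m - 1) (by omega) (by omega)))
    have hne : (l - 1) % 2 ≠ (m - 1) % 2 := by
      intro h1
      have := hpar (l - 1) (m - 1) (by omega) (by omega) h1 hc hc2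
      omega
    have hafter : ∀ k, m ≤ k → k ≤ 2 * h + 1 → ¬ f k := by
      intro k
      induction k with
      | zero => intro h1; omega
      | succ k ih =>
        intro h1 h2 h3
        rcases Nat.eq_or_lt_of_le h1 with h4 | h4
        · rw [← h4] at h3; exact m3 h3
        · have h5 := ih (by omega) (by omega)
          have h6 : ¬ (f k ↔ f (k + 1)) := fun h7 => h5 (h7.2 h3)
          by_cases h7 : (l - 1) % 2 = k % 2
          · have := hpar (l - 1) k (by omega) (by omega) h7 hc h6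
            omega
          · have := hpar (m - 1) k (by omega) (by omega) (by omega) hc2 h6
            omega
    refine ⟨l, m - 1, hl1, by omega, by omega, by omega, fun k hk => ⟨fun h1 => ?_, fun h1 => ?_⟩⟩
    · by_contra h2
      by_cases h3 : k < l
      · exact hlt k h3 h1
      · exact hafter k (by omega) hk h1
    · exact hmt k h1.1 (by omega)
  · push Not at hex2
    have hall2 : ∀ k, l ≤ k → k ≤ 2 * h + 1 → f k := by
      intro k h1 h2
      rcases Nat.eq_or_lt_of_le h1 with h4 | h4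
      · rw [← h4]; exact hfl
      · exact hex2 k h4 h2
    have hodd : l % 2 = 1 := by
      by_contra h1
      have h2 := hz (hall2 (2 * h + 1) hlh le_rfl) ((l - 1) / 2) (by omega)
      have e1 : 2 * ((l - 1) / 2) + 1 = l - 1 := by omega
      have e2 : 2 * ((l - 1) / 2) + 2 = l - 1 + 1 := by omega
      rw [e1, e2] at h2
      exact hc h2
    refine ⟨l, 2 * h + 1, hl1, hlh, le_rfl, by omega, fun k hk => ⟨fun h1 => ?_, fun h1 => ?_⟩⟩
    · by_contra h2
      exact hlt k (by omega) h1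
    · exact hall2 k h1.1 hk

theorem sum_le_one {s : Finset ℕ} {f : ℕ → ℤ} (h1 : ∀ j ∈ s, f j = 0 ∨ f j = 1)
    (h2 : ∀ a ∈ s, ∀ b ∈ s, f a = 1 → f b = 1 → a = b) : ∑ j ∈ s, f j ≤ 1 := by
  by_cases h : ∀ j ∈ s, f j = 0
  · rw [sum_eq_zero h]; norm_num
  · push Not at h
    obtain ⟨j, hj, hj2⟩ := h
    have hj3 : f j = 1 := (h1 j hj).resolve_left hj2
    rw [sum_eq_single j]
    · exact hj3.le
    · intro b hb hbj
      rcases h1 b hb with h3 | h3
      · exact h3
      · exact absurd (h2 b hb j hj h3 hj3) hbj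
    · intro h3; exact absurd hj h3

theorem Tight.full (C : Tight S c r I K N p h) {i : ι} (hi : i ∈ I) (hr : r ∈ K i) :
    ∀ j, j ≤ h → p j ∈ K i := by
  have h0 : p 0 ∈ K i := by rw [C.root i hi hr (p 0), ← C.rt]; exact hr
  have h1 := C.cr_eq hi
  have h2 : cut (K i) (p 0) r = 0 := by rw [cut_eq_zero_iff]; exact ⟨fun _ => hr, fun _ => h0⟩
  have h3 : ∀ v, cut (K i) v (S.m v) = 0 := fun v => by
    rw [cut_eq_zero_iff]; exact C.root i hi hr v
  unfold gg cr at h1
  rw [h2, sum_congr rfl (fun j _ => by rw [h3 (p (j + 1)), sub_zero])] at h1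
  have h4 : ∀ j ∈ Ico 0 h, 0 ≤ cut (K i) (p j) (S.m (p (j + 1))) := fun j _ => cut_nonneg _ _ _
  have h5 := sum_nonneg h4
  have h6 := cut_nonneg (K i) r (p h)
  have h7 := (sum_eq_zero_iff_of_nonneg h4).1 (by omega)
  intro j
  induction j with
  | zero => intro _; exact h0
  | succ j ih =>
    intro hj
    have h8 := h7 j (mem_Ico.2 ⟨Nat.zero_le _, hj⟩)
    rw [cut_eq_zero_iff] at h8
    rw [C.root i hi hr]
    exact h8.1 (ih (by omega))

theorem Tight.shape (C : Tight S c r I K N p h) {i : ι} (hi : i ∈ I) (hr : r ∉ K i) :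
    (∀ k, k ≤ 2 * h + 1 → vv S p k ∉ K i) ∨ ∃ l m, Ivl S (K i) p h l m := by
  have hM : ∀ a b, a ≤ h → b ≤ h → cut (K i) (p a) (S.m (p a)) = 1 →
      cut (K i) (p b) (S.m (p b)) = 1 → a = b := by
    intro a b ha hb h1 h2
    by_contra hab
    have h3 := C.path.ne_of hab ha hb
    rcases C.one_cross hi h3.1 h3.2 with h4 | h4 <;> omega
  have h1 := C.cr_eq hi
  unfold gg cr at h1
  rw [sum_sub_distrib] at h1
  have h2 : ∑ j ∈ Ico 0 (h + 1), cut (K i) (p j) (S.m (p j)) ≤ 1 := by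
    apply sum_le_one
    · intro j _; exact cut_zero_or_one _ _ _
    · intro a ha b hb
      rw [mem_Ico] at ha hb
      exact hM a b (by omega) (by omega)
  rw [← range_eq_Ico, sum_range_succ', ← C.rt, range_eq_Ico] at h2
  have hodd : ∀ a b, a < h → b < h → ¬ (p a ∈ K i ↔ S.m (p (a + 1)) ∈ K i) →
      ¬ (p b ∈ K i ↔ S.m (p (b + 1)) ∈ K i) → a = b := by
    intro a b ha hb h3 h4
    by_contra hab
    have h5 : ∑ j ∈ ({a, b} : Finset ℕ), cut (K i) (p j) (S.m (p (j + 1))) ≤
        ∑ j ∈ Ico 0 h, cut (K i) (p j) (S.m (p (j + 1))) := by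
      apply sum_le_sum_of_subset_of_nonneg
      · intro j hj
        rw [mem_insert, mem_singleton] at hj
        rw [mem_Ico]
        omega
      · intro j _ _; exact cut_nonneg _ _ _
    rw [sum_pair hab, cut_eq_one_iff.2 h3, cut_eq_one_iff.2 h4] at h5
    have h6 := cut_nonneg (K i) r (p h)
    omega
  have h3 := seq_shape (fun k => vv S p k ∈ K i) h ?_ ?_ ?_ ?_
  · rcases h3 with h3 | ⟨l, m, g1, g2, g3, g4, g5⟩
    · exact Or.inl h3
    · exact Or.inr ⟨l, m, g1, g2, g3, g4, g5⟩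
  · have := vv_even (S := S) p 0
    simp only [mul_zero] at this
    rw [this, ← C.rt]
    exact hr
  · intro a b ha hb h4 h5
    simp only [vv_even, vv_odd] at h4 h5
    exact hM a b ha hb (by rw [cut_eq_one_iff]; tauto) (by rw [cut_eq_one_iff]; tauto)
  · intro a b ha hb h4 h5
    have e : ∀ a, 2 * a + 2 = 2 * (a + 1) := fun a => by ring
    simp only [e, vv_even, vv_odd] at h4 h5
    exact hodd a b ha hb h4 h5
  · intro hz a ha
    have e : ∀ a, 2 * a + 2 = 2 * (a + 1) := fun a => by ring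
    simp only [e, vv_even, vv_odd] at hz ⊢
    by_contra h4
    have h5 : cut (K i) r (p h) = 1 := by
      rw [cut_eq_one_iff]; exact fun h6 => hr (h6.2 hz)
    have h6 : ∑ j ∈ ({a} : Finset ℕ), cut (K i) (p j) (S.m (p (j + 1))) ≤
        ∑ j ∈ Ico 0 h, cut (K i) (p j) (S.m (p (j + 1))) := by
      apply sum_le_sum_of_subset_of_nonneg
      · intro j hj
        rw [mem_singleton] at hj
        rw [mem_Ico]
        omega
      · intro j _ _; exact cut_nonneg _ _ _
    rw [sum_singleton, cut_eq_one_iff.2 h4] at h6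
    omega

/-- Indicator of the node `p a` in the interval. -/
def ind (l m a : ℕ) : ℤ := if l ≤ 2 * a + 1 ∧ 2 * a + 1 ≤ m then 1 else 0

theorem Ivl.mem_node {K : Set V} {l m : ℕ} (H : Ivl S K p h l m) {a : ℕ} (ha : a ≤ h) :
    p a ∈ K ↔ l ≤ 2 * a + 1 ∧ 2 * a + 1 ≤ m := by
  have := H.mem (2 * a + 1) (by omega)
  rwa [vv_odd] at this

theorem Ivl.mem_mate {K : Set V} {l m : ℕ} (H : Ivl S K p h l m) {a : ℕ} (ha : a ≤ h) :
    S.m (p a) ∈ K ↔ l ≤ 2 * a ∧ 2 * a ≤ m := by
  have := H.mem (2 * a) (by omega)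
  rwa [vv_even] at this

theorem Ivl.cut_nodes {K : Set V} {l m : ℕ} (H : Ivl S K p h l m) {a b : ℕ} (ha : a ≤ h)
    (hb : b ≤ h) : cut K (p a) (p b) =
    if (l ≤ 2 * a + 1 ∧ 2 * a + 1 ≤ m) ↔ (l ≤ 2 * b + 1 ∧ 2 * b + 1 ≤ m) then 0 else 1 := by
  unfold cut
  rw [H.mem_node ha, H.mem_node hb]
  congr

theorem Ivl.cr_part {K : Set V} {l m : ℕ} (H : Ivl S K p h l m) {a b : ℕ} (hab : a ≤ b)
    (hb : b ≤ h) :
    cr S K p a b = (if l % 2 = 0 then 1 else -1) * (ind l m b - ind l m a) := by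
  induction b, hab using Nat.le_induction with
  | base => rw [cr_self, sub_self, mul_zero]
  | succ b hab ih =>
    rw [cr_succ K p hab, ih (by omega)]
    have h1 := H.par
    have h2 := H.one_le
    have h3 := H.le
    have h4 := H.le'
    unfold cut ind
    rw [H.mem_node (by omega), H.mem_node hb, H.mem_mate hb]
    by_cases hl : l % 2 = 0
    · rw [if_pos hl]
      split_ifs <;> omega
    · rw [if_neg hl]
      split_ifs <;> omega

/-- The base is on the matching edge of `p (l/2)` or `p (m/2)`. -/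
theorem Ivl.base {K : Set V} {l m : ℕ} (H : Ivl S K p h l m) {a : ℕ} (ha : a ≤ h)
    (h1 : (l % 2 = 1 ∧ a = l / 2) ∨ (l % 2 = 0 ∧ a = m / 2)) :
    cut K (p a) (S.m (p a)) = 1 := by
  have g1 := H.par
  have g2 := H.one_le
  have g3 := H.le
  have g4 := H.le'
  rw [cut_eq_one_iff, H.mem_node ha, H.mem_mate ha]
  omega

/-- No danger for a single part. -/
def Safe1 (l m a b : ℕ) : Prop :=
  (l % 2 = 1 → ¬ (l < 2 * a + 1 ∧ 2 * a + 1 ≤ m ∧ m < 2 * b + 1)) ∧
    (l % 2 = 0 → ¬ (2 * a + 1 < l ∧ l ≤ 2 * b + 1 ∧ 2 * b + 1 ≤ m))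

/-- No danger for two parts. -/
def Safe2 (l m a b d e : ℕ) : Prop :=
  (l % 2 = 1 → ¬ (l < 2 * a + 1 ∧ 2 * a + 1 ≤ m ∧ m < 2 * b + 1) ∧
      ¬ (l < 2 * a + 1 ∧ 2 * d + 1 ≤ m ∧ m < 2 * e + 1) ∧
      ¬ (2 * b + 1 < l ∧ l < 2 * d + 1 ∧ 2 * d + 1 ≤ m ∧ m < 2 * e + 1)) ∧
    (l % 2 = 0 → ¬ (2 * a + 1 < l ∧ l ≤ 2 * b + 1 ∧ 2 * b + 1 ≤ m ∧ m < 2 * d) ∧
      ¬ (2 * a + 1 < l ∧ l ≤ 2 * b + 1 ∧ 2 * e + 1 ≤ m) ∧
      ¬ (2 * d + 1 < l ∧ l ≤ 2 * e + 1 ∧ 2 * e + 1 ≤ m))

/-- **Comparison for one part.** -/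
theorem Tight.single_ge (C : Tight S c r I K N p h) {a b : ℕ} (hab : a ≤ b) (hb : b ≤ h)
    {q : ℕ → V} {k : ℕ} (hq : S.Path q k) (h0 : q 0 = p a) (hk : q k = p b)
    (hsafe : ∀ i ∈ I, r ∉ K i → ∀ l m, Ivl S (K i) p h l m → Safe1 l m a b) :
    wt c p a b ≤ wt c q 0 k := by
  have h1 := C.path_ge (q := q) (a := 0) (b := k) fun j _ hj => hq.1 j hj
  rw [C.wt_part hab hb]
  refine (sum_le_sum fun i hi => ?_).trans h1
  by_cases hr : r ∈ K i
  · have hz : ∀ v, cut (K i) v (S.m v) = 0 := fun v => by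
      rw [cut_eq_zero_iff]; exact C.root i hi hr v
    have h2 : cr S (K i) p a b = 0 := by
      unfold cr
      apply sum_eq_zero
      intro j hj
      rw [mem_Ico] at hj
      rw [hz, sub_zero, cut_eq_of (hz _), cut_eq_zero_iff]
      exact ⟨fun _ => C.full hi hr _ (by omega), fun _ => C.full hi hr _ (by omega)⟩
    rw [h2]
    exact (cut_nonneg _ _ _).trans (cr_ge_of_avoid fun j _ _ => hz _)
  · have g1 := C.cr_neg hi hq
    rcases C.shape hi hr with h3 | ⟨l, m, H⟩
    · have hm : ∀ a, a ≤ h → p a ∉ K i := by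
        intro a ha
        have := h3 (2 * a + 1) (by omega)
        rwa [vv_odd] at this
      have hm' : ∀ a, a ≤ h → S.m (p a) ∉ K i := by
        intro a ha
        have := h3 (2 * a) (by omega)
        rwa [vv_even] at this
      have h2 : cr S (K i) p a b = 0 := by
        unfold cr
        apply sum_eq_zero
        intro j hj
        rw [mem_Ico] at hj
        rw [cut_eq_zero_iff.2, cut_eq_zero_iff.2, sub_zero]
        · exact ⟨fun h => absurd h (hm _ (by omega)), fun h => absurd h (hm' _ (by omega))⟩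
        · exact ⟨fun h => absurd h (hm _ (by omega)), fun h => absurd h (hm' _ (by omega))⟩
      rw [h2]
      have h4 : cut (K i) (q 0) (q k) = 0 := by
        rw [h0, hk, cut_eq_zero_iff]
        exact ⟨fun h => absurd h (hm _ (by omega)), fun h => absurd h (hm _ (by omega))⟩
      omega
    · rw [H.cr_part hab hb]
      have hs := hsafe i hi hr l m H
      have hcut := H.cut_nodes (a := a) (b := b) (by omega) hb
      rw [h0, hk, hcut] at g1
      have g2 : (l % 2 = 1 ∧ a = l / 2) ∨ (l % 2 = 0 ∧ a = m / 2) →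
          cut (K i) (q 0) (q k) ≤ cr S (K i) q 0 k := fun g =>
        C.cr_start hi hq (by rw [h0]; exact H.base (by omega) g)
      rw [h0, hk, hcut] at g2
      have e1 := H.par
      have e2 := H.one_le
      have e3 := H.le
      have e4 := H.le'
      generalize cr S (K i) q 0 k = X at g1 g2
      unfold ind
      unfold Safe1 at hs
      rcases Nat.mod_two_eq_zero_or_one l with hl | hl
      · rw [if_pos hl]
        have hs2 := hs.2 hl
        split_ifs at g1 g2 ⊢ <;> omega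
      · rw [if_neg (by omega)]
        have hs2 := hs.1 hl
        split_ifs at g1 g2 ⊢ <;> omega

end Pool.Agent.WPM
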